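import Pool.Agent.H72.UV.Final
import Pool.Agent.H98.TU.L2S
import Pool.Agent.H85.TU.Targets2

/-!
# Row EAS of tum_modules: the dichotomy for the prefixes `∃*∀*`
-/

set_option autoImplicit false

open Set Pool.Agent.H85.TU

namespace Pool.Agent.H4.TU

/-- universal prefixes -/
lemma pre_all : ∀ (k : ℕ) (R : List ℕ → Prop),
    Pre (List.replicate k true) R ↔ ∀ a : List ℕ, a.length = k → R a
  | 0, R => by
    constructor
    · intro h a ha
      have h1 : a = [] := List.length_eq_zero_iff.1 ha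
      rw [h1]
      exact h
    · intro h
      exact h [] rfl
  | k + 1, R => by
    have h1 : Pre (List.replicate (k + 1) true) R ↔
        ∀ a : ℕ, Pre (List.replicate k true) fun l => R (a :: l) := Iff.rfl
    rw [h1]
    constructor
    · intro h a ha
      rcases a with _ | ⟨b, a⟩
      · simp at ha
      · exact (pre_all k (fun l => R (b :: l))).1 (h b) a (by simpa using ha)
    · intro h b
      refine (pre_all k (fun l => R (b :: l))).2 fun a ha => h (b :: a) ?_
      rw [List.length_cons, ha]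

/-- the prefixes `∃*∀*` -/
lemma pre_ea (k : ℕ) : ∀ (m : ℕ) (R : List ℕ → Prop),
    Pre (List.replicate m false ++ List.replicate k true) R ↔
      ∃ c : List ℕ, c.length = m ∧ ∀ a : List ℕ, a.length = k → R (c ++ a)
  | 0, R => by
    have h1 : Pre (List.replicate 0 false ++ List.replicate k true) R ↔
        Pre (List.replicate k true) R := Iff.rfl
    rw [h1, pre_all]
    constructor
    · intro h
      exact ⟨[], rfl, fun a ha => h a ha⟩
    · rintro ⟨c, hc, h⟩ a ha
      have h1 : c = [] := List.length_eq_zero_iff.1 hc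
      have h2 := h a ha
      rw [h1] at h2
      exact h2
  | m + 1, R => by
    have h1 : Pre (List.replicate (m + 1) false ++ List.replicate k true) R ↔
        ∃ a : ℕ, Pre (List.replicate m false ++ List.replicate k true) fun l => R (a :: l) :=
      Iff.rfl
    rw [h1]
    constructor
    · rintro ⟨b, hb⟩
      obtain ⟨c, hc, h⟩ := (pre_ea k m (fun l => R (b :: l))).1 hb
      exact ⟨b :: c, by rw [List.length_cons, hc], fun a ha => h a ha⟩
    · rintro ⟨c, hc, h⟩
      rcases c with _ | ⟨b, c⟩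
      · simp at hc
      · exact ⟨b, (pre_ea k m (fun l => R (b :: l))).2 ⟨c, by simpa using hc, fun a ha => h a ha⟩⟩

section

variable {ι : Type} {ar : ι → ℕ} {D : ι → Type}

lemma tp_dec_meas [∀ i, MeasurableSpace (D i)] {n : ℕ} (v : Fin n → ℕ) :
    Measurable fun y : List ℕ → ∀ i, D i => tp (Pool.Agent.H98.TU.dec ar y) v := by
  refine Measurable.prodMk ?_ measurable_const
  refine measurable_pi_iff.2 fun i => measurable_pi_iff.2 fun w => ?_
  exact (measurable_pi_apply i).comp (measurable_pi_apply (List.ofFn (v ∘ w)))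

lemma tp_dec_dep {n : ℕ} (v : Fin n → ℕ) (y y' : List ℕ → ∀ i, D i)
    (h : ∀ l : List ℕ, (∀ x ∈ l, x ∈ Finset.univ.image v) → y l = y' l) :
    tp (Pool.Agent.H98.TU.dec ar y) v = tp (Pool.Agent.H98.TU.dec ar y') v := by
  refine Prod.ext ?_ rfl
  funext i w
  change y (List.ofFn (v ∘ w)) i = y' (List.ofFn (v ∘ w)) i
  rw [h]
  intro x hx
  obtain ⟨j, hj⟩ := (List.mem_ofFn' _ _).1 hx
  rw [← hj]
  exact Finset.mem_image_of_mem v (Finset.mem_univ (w j))

end

theorem pf_EAS (hSIS : T_SIS) : T_EAS := by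
  classical
  intro ι _ ar D _ _ π B hπ hB
  have hinv := hSIS ι ar D π B
  obtain ⟨m, k, hmk⟩ := hπ
  by_cases hne : ∀ i, Nonempty (D i)
  swap
  · left
    refine ⟨∅, countable_empty, fun x _ => ?_⟩
    exact absurd (fun i => ⟨x i fun _ => 0⟩) hne
  have hd : Nonempty (∀ i, D i) := inferInstance
  obtain ⟨d⟩ := hd
  have hdm : Measurable (Pool.Agent.H98.TU.dec ar : (List ℕ → ∀ i, D i) → Str ar D ℕ) := by
    refine measurable_pi_iff.2 fun i => measurable_pi_iff.2 fun v => ?_
    exact (measurable_pi_apply i).comp (measurable_pi_apply (List.ofFn v))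
  -- membership in the class
  have hmem : ∀ x : Str ar D ℕ, x ∈ Sent π B ↔ ∃ c : List ℕ, c.length = m ∧
      ∀ a : List ℕ, a.length = k → tp x (fun i : Fin π.length => (c ++ a).getD i 0) ∈ B := by
    intro x
    have h1 : x ∈ Sent π B ↔ Pre π fun l => tp x (fun i : Fin π.length => l.getD i 0) ∈ B :=
      Iff.rfl
    rw [h1]
    have h2 := pre_ea k m (fun l => tp x (fun i : Fin π.length => l.getD i 0) ∈ B)
    rw [← hmk] at h2
    exact h2
  let X' : Set (List ℕ → ∀ i, D i) := {y | Pool.Agent.H98.TU.dec ar y ∈ Sent π B ∧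
    ∀ l i, l.length ≠ ar i → y l i = d i}
  -- the sets
  let A1 : List ℕ → List ℕ → Set (List ℕ → ∀ i, D i) := fun c a =>
    {y | c.length = m ∧ (a.length = k → tp (Pool.Agent.H98.TU.dec ar y)
      (fun i : Fin π.length => (c ++ a).getD i 0) ∈ B)}
  let A2 : List ℕ → ι → Set (List ℕ → ∀ i, D i) := fun l i =>
    {y | l.length ≠ ar i → y l i = d i}
  let A : List ℕ → (List ℕ ⊕ (List ℕ × ι)) → Set (List ℕ → ∀ i, D i) := fun c s =>
    Sum.elim (fun a => A1 c a) (fun p => A2 p.1 p.2) s
  have hA1m : ∀ c a, MeasurableSet (A1 c a) := by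
    intro c a
    by_cases h1 : c.length = m
    · by_cases h2 : a.length = k
      · have h3 : A1 c a = (fun y => tp (Pool.Agent.H98.TU.dec ar y)
            (fun i : Fin π.length => (c ++ a).getD i 0)) ⁻¹' B := by
          ext y
          exact ⟨fun h => h.2 h2, fun h => ⟨h1, fun _ => h⟩⟩
        rw [h3]
        exact tp_dec_meas _ hB
      · have h3 : A1 c a = univ := by
          ext y
          exact ⟨fun _ => trivial, fun _ => ⟨h1, fun h => absurd h h2⟩⟩
        rw [h3]
        exact MeasurableSet.univ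
    · have h3 : A1 c a = ∅ := by
        ext y
        exact ⟨fun h => absurd h.1 h1, fun h => h.elim⟩
      rw [h3]
      exact MeasurableSet.empty
  have hA2m : ∀ l i, MeasurableSet (A2 l i) := by
    intro l i
    by_cases h : l.length = ar i
    · have h2 : A2 l i = univ := by
        ext y
        exact ⟨fun _ => trivial, fun _ h3 => absurd h h3⟩
      rw [h2]
      exact MeasurableSet.univ
    · have h2 : A2 l i = (fun y : List ℕ → ∀ i, D i => y l i) ⁻¹' {d i} := by
        ext y
        exact ⟨fun h3 => h3 h, fun h3 _ => h3⟩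
      rw [h2]
      have h3 : Measurable (fun y : List ℕ → ∀ i, D i => y l i) :=
        (measurable_pi_apply i).comp (measurable_pi_apply l)
      exact h3 (measurableSet_singleton (d i))
  have hA1f : ∀ c a, Pool.Agent.H72.UV.FinDep (A1 c a) := by
    intro c a
    refine ⟨Finset.univ.image (fun i : Fin π.length => (c ++ a).getD i 0), fun y y' h => ?_⟩
    have h1 := tp_dec_dep (ar := ar) (fun i : Fin π.length => (c ++ a).getD i 0) y y' h
    constructor
    · rintro ⟨h2, h3⟩
      exact ⟨h2, fun h4 => h1 ▸ h3 h4⟩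
    · rintro ⟨h2, h3⟩
      exact ⟨h2, fun h4 => h1.symm ▸ h3 h4⟩
  have hA2f : ∀ l i, Pool.Agent.H72.UV.FinDep (A2 l i) := by
    intro l i
    refine ⟨l.toFinset, fun y y' h => ?_⟩
    have h1 : y l = y' l := h l fun x hx => List.mem_toFinset.2 hx
    constructor
    · intro h2 h3
      rw [← h1]
      exact h2 h3
    · intro h2 h3
      rw [h1]
      exact h2 h3
  obtain ⟨e1, he1⟩ := exists_surjective_nat (List ℕ)
  haveI : Nonempty (List ℕ ⊕ (List ℕ × ι)) := ⟨Sum.inl []⟩
  obtain ⟨e2, he2⟩ := exists_surjective_nat (List ℕ ⊕ (List ℕ × ι))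
  have hX' : X' = ⋃ n, ⋂ j, A (e1 n) (e2 j) := by
    ext y
    rw [mem_iUnion]
    constructor
    · rintro ⟨h1, h2⟩
      obtain ⟨c, hc, h3⟩ := (hmem _).1 h1
      obtain ⟨n, hn⟩ := he1 c
      refine ⟨n, mem_iInter.2 fun j => ?_⟩
      rw [hn]
      rcases e2 j with a | ⟨l, i⟩
      · exact ⟨hc, h3 a⟩
      · exact h2 l i
    · rintro ⟨n, hn⟩
      rw [mem_iInter] at hn
      have h1 : ∀ s, y ∈ A (e1 n) s := by
        intro s
        obtain ⟨j, hj⟩ := he2 s
        rw [← hj]
        exact hn j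
      refine ⟨(hmem _).2 ⟨e1 n, (h1 (Sum.inl [])).1, fun a ha => (h1 (Sum.inl a)).2 ha⟩,
        fun l i => h1 (Sum.inr (l, i))⟩
  have hInv : Pool.Agent.H72.UV.Inv X' := by
    rintro y ⟨h1, h2⟩ g
    refine ⟨hinv _ h1 _ (Pool.Agent.H98.TU.iso_dec (ar := ar) ⟨g⁻¹, fun l => ?_⟩),
      fun l i hl => h2 (l.map g) i (by rw [List.length_map]; exact hl)⟩
    change y ((l.map ⇑g⁻¹).map g) = y l
    rw [List.map_map]
    congr 1
    have h3 : (⇑g ∘ ⇑g⁻¹) = id := by
      funext x
      simp
    rw [h3, List.map_id]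
  have hmain := Pool.Agent.H72.UV.sigmaStmt (∀ i, D i) X'
    ⟨fun n j => A (e1 n) (e2 j), fun n j => by
      change MeasurableSet (A (e1 n) (e2 j)) ∧ Pool.Agent.H72.UV.FinDep (A (e1 n) (e2 j))
      rcases e2 j with a | ⟨l, i⟩
      · exact ⟨hA1m _ _, hA1f _ _⟩
      · exact ⟨hA2m _ _, hA2f _ _⟩, hX'⟩ hInv
  have hencX : ∀ x ∈ Sent π B, Pool.Agent.H98.TU.enc d x ∈ X' := fun x hx =>
    ⟨by rw [Pool.Agent.H98.TU.dec_enc]; exact hx,
      fun l i h => Pool.Agent.H98.TU.enc_ne d x l i h⟩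
  rcases hmain with ⟨S, hS, h⟩ | ⟨F, hF, hFX, hFne⟩
  · left
    refine ⟨Pool.Agent.H98.TU.dec ar '' S, hS.image _, fun x hx => ?_⟩
    obtain ⟨z, hz, hiso⟩ := h _ (hencX x hx)
    refine ⟨Pool.Agent.H98.TU.dec ar z, mem_image_of_mem _ hz, ?_⟩
    have h1 := Pool.Agent.H98.TU.iso_dec (ar := ar) hiso
    rw [Pool.Agent.H98.TU.dec_enc] at h1
    exact h1
  · right
    refine ⟨fun u => Pool.Agent.H98.TU.dec ar (F u), hdm.comp hF, fun u => (hFX u).1,
      fun u v huv hiso => ?_⟩
    have h1 := Pool.Agent.H98.TU.iso_enc d hiso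
    rw [Pool.Agent.H98.TU.enc_dec d _ (hFX u).2, Pool.Agent.H98.TU.enc_dec d _ (hFX v).2] at h1
    exact hFne u v huv h1

end Pool.Agent.H4.TU
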